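import Pool.Agent.Helper51.LT.St

set_option autoImplicit false

namespace Pool.Agent.Helper72.LT

open Complex Set Metric Filter Topology
open Pool.Agent.Helper51.LT

theorem hGH : StGH := by
  intro P q f₀ hPd hP0 hstep η hη
  -- one step of the construction
  have hnext : ∀ (k : ℕ) (s : {s : (ℂ → ℂ) × ℝ × ℝ // P s.1 ∧ 0 < s.2.1 ∧ s.2.2 < 1}),
      ∃ s' : {s : (ℂ → ℂ) × ℝ × ℝ // P s.1 ∧ 0 < s.2.1 ∧ s.2.2 < 1},
        (∀ z : ℂ, ‖z‖ ≤ s.1.2.2 → ‖s'.1.1 z - s.1.1 z‖ ≤ s.1.2.1 / 2) ∧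
        (∀ F : ℂ → ℂ, DifferentiableOn ℂ F (ball 0 1) →
          (∀ z : ℂ, ‖z‖ ≤ s'.1.2.2 → ‖F z - s'.1.1 z‖ ≤ s'.1.2.1) → q k F) ∧
        s'.1.2.1 ≤ s.1.2.1 / 2 ∧ s.1.2.2 ≤ s'.1.2.2 ∧ 1 - 1 / ((k : ℝ) + 2) ≤ s'.1.2.2 := by
    rintro k ⟨⟨f, b, R⟩, hPf, hb, hR⟩
    simp only at hPf hb hR
    obtain ⟨f₁, hP1, hcl, η₁, hη₁, r₁, hr0, hr1, hrob⟩ := hstep f hPf (b / 2) R k (by linarith) hR
    have hk : (0 : ℝ) < 1 / ((k : ℝ) + 2) := by positivity
    refine ⟨⟨⟨f₁, min b η₁ / 2, max (max R r₁) (1 - 1 / ((k : ℝ) + 2))⟩, hP1, ?_, ?_⟩,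
      ?_, ?_, ?_, ?_, ?_⟩
    · have : 0 < min b η₁ := lt_min hb hη₁
      simpa using this
    · simp only [max_lt_iff]
      exact ⟨⟨hR, hr1⟩, by linarith⟩
    · intro z hz
      exact hcl z hz
    · intro F hF hz
      apply hrob F hF
      intro z hzr
      have h1 : ‖z‖ ≤ max (max R r₁) (1 - 1 / ((k : ℝ) + 2)) :=
        hzr.trans ((le_max_right _ _).trans (le_max_left _ _))
      refine (hz z h1).trans ?_
      have h2 : 0 < min b η₁ := lt_min hb hη₁
      have h3 : min b η₁ ≤ η₁ := min_le_right _ _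
      simp only
      linarith
    · have h3 : min b η₁ ≤ b := min_le_left _ _
      simp only
      linarith
    · exact (le_max_left _ _).trans (le_max_left _ _)
    · exact le_max_right _ _
  choose nx hn1 hn2 hn3 hn4 hn5 using hnext
  let S : ℕ → {s : (ℂ → ℂ) × ℝ × ℝ // P s.1 ∧ 0 < s.2.1 ∧ s.2.2 < 1} := fun k =>
    Nat.rec (⟨⟨f₀, η, 1 / 2⟩, hP0, hη, by norm_num⟩) (fun k s => nx k s) k
  have hS0 : S 0 = ⟨⟨f₀, η, 1 / 2⟩, hP0, hη, by norm_num⟩ := rfl
  have hSs : ∀ k, S (k + 1) = nx k (S k) := fun k => rfl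
  set f : ℕ → ℂ → ℂ := fun k => (S k).1.1 with hf
  set b : ℕ → ℝ := fun k => (S k).1.2.1 with hb
  set R : ℕ → ℝ := fun k => (S k).1.2.2 with hR
  have hf0 : f 0 = f₀ := by simp only [hf, hS0]
  have hb0 : b 0 = η := by simp only [hb, hS0]
  have hR0 : R 0 = 1 / 2 := by simp only [hR, hS0]
  have hPf : ∀ k, P (f k) := fun k => (S k).2.1
  have hbp : ∀ k, 0 < b k := fun k => (S k).2.2.1
  have hR1 : ∀ k, R k < 1 := fun k => (S k).2.2.2
  have e1 : ∀ k (z : ℂ), ‖z‖ ≤ R k → ‖f (k + 1) z - f k z‖ ≤ b k / 2 := fun k => hn1 k (S k)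
  have e2 : ∀ k (F : ℂ → ℂ), DifferentiableOn ℂ F (ball 0 1) →
      (∀ z : ℂ, ‖z‖ ≤ R (k + 1) → ‖F z - f (k + 1) z‖ ≤ b (k + 1)) → q k F :=
    fun k => hn2 k (S k)
  have e3 : ∀ k, b (k + 1) ≤ b k / 2 := fun k => hn3 k (S k)
  have e4 : ∀ k, R k ≤ R (k + 1) := fun k => hn4 k (S k)
  have e5 : ∀ k : ℕ, 1 - 1 / ((k : ℝ) + 2) ≤ R (k + 1) := fun k => hn5 k (S k)
  clear_value f b R
  have hmono : Monotone R := monotone_nat_of_le_succ e4
  have hbg : ∀ k i, b (k + i) ≤ b k / 2 ^ i := by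
    intro k i
    induction i with
    | zero => simp
    | succ i ih =>
      calc b (k + (i + 1)) ≤ b (k + i) / 2 := e3 (k + i)
        _ ≤ (b k / 2 ^ i) / 2 := by linarith
        _ = b k / 2 ^ (i + 1) := by rw [pow_succ]; ring
  have hgeo : ∀ k (z : ℂ), ‖z‖ ≤ R k → ∀ i, dist (f (k + i) z) (f (k + (i + 1)) z)
      ≤ b k / 2 / 2 ^ i := by
    intro k z hz i
    rw [dist_comm, dist_eq_norm]
    have h1 : ‖z‖ ≤ R (k + i) := hz.trans (hmono (by omega))
    refine (e1 (k + i) z h1).trans ?_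
    have := hbg k i
    calc b (k + i) / 2 ≤ (b k / 2 ^ i) / 2 := by linarith
      _ = b k / 2 / 2 ^ i := by ring
  have hRex : ∀ x : ℝ, x < 1 → ∃ k, x ≤ R k := by
    intro x hx
    obtain ⟨k, hk⟩ := exists_nat_gt (1 / (1 - x))
    refine ⟨k + 1, le_trans ?_ (e5 k)⟩
    have hx' : 0 < 1 - x := by linarith
    have hk2 : 1 / (1 - x) < (k : ℝ) + 2 := by linarith
    have hkp : (0 : ℝ) < (k : ℝ) + 2 := by positivity
    have h1 : 1 / ((k : ℝ) + 2) < 1 - x := by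
      rw [div_lt_iff₀ hkp]
      rw [div_lt_iff₀ hx'] at hk2
      linarith
    linarith
  have hlim : ∀ z : ℂ, ∃ a : ℂ, ‖z‖ < 1 → Tendsto (fun k => f k z) atTop (𝓝 a) := by
    intro z
    by_cases hz : ‖z‖ < 1
    · obtain ⟨k, hk⟩ := hRex ‖z‖ hz
      have hc := cauchySeq_of_le_geometric_two (hgeo k z hk)
      obtain ⟨a, ha⟩ := cauchySeq_tendsto_of_complete hc
      refine ⟨a, fun _ => ?_⟩
      have h2 : Tendsto (fun i => f (i + k) z) atTop (𝓝 a) := by
        refine ha.congr (fun i => ?_)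
        rw [add_comm]
      exact (tendsto_add_atTop_iff_nat (f := fun i => f i z) k).1 h2
    · exact ⟨0, fun h => absurd h hz⟩
  choose F hF using hlim
  have hbound : ∀ k (z : ℂ), ‖z‖ ≤ R k → ‖F z - f k z‖ ≤ b k := by
    intro k z hz
    have ht := hF z (hz.trans_lt (hR1 k))
    have h2 : Tendsto (fun i => f (k + i) z) atTop (𝓝 (F z)) := by
      have h3 := (tendsto_add_atTop_iff_nat (f := fun i => f i z) k).2 ht
      refine h3.congr (fun i => ?_)
      rw [add_comm]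
    have h4 := dist_le_of_le_geometric_two_of_tendsto₀ (f := fun i => f (k + i) z)
      (hgeo k z hz) h2
    rw [dist_comm, dist_eq_norm] at h4
    simpa using h4
  have hdiff : DifferentiableOn ℂ F (ball 0 1) := by
    have hloc : TendstoLocallyUniformlyOn f F atTop (ball (0 : ℂ) 1) := by
      rw [Metric.tendstoLocallyUniformlyOn_iff]
      intro ε hε x hx
      rw [mem_ball_zero_iff] at hx
      obtain ⟨k, hk⟩ := hRex ((1 + ‖x‖) / 2) (by linarith)
      refine ⟨ball 0 ((1 + ‖x‖) / 2), ?_, ?_⟩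
      · apply mem_nhdsWithin_of_mem_nhds
        apply isOpen_ball.mem_nhds
        rw [mem_ball_zero_iff]
        linarith
      · have hb1 : Tendsto (fun i : ℕ => b k / 2 ^ i) atTop (𝓝 0) := by
          have h5 : Tendsto (fun i : ℕ => (2 : ℝ) ^ i) atTop atTop :=
            tendsto_pow_atTop_atTop_of_one_lt (by norm_num)
          exact h5.const_div_atTop (b k)
        have hb2 : ∀ᶠ i : ℕ in atTop, b k / 2 ^ i < ε := hb1.eventually (gt_mem_nhds hε)
        obtain ⟨i0, hi0⟩ := eventually_atTop.1 hb2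
        filter_upwards [eventually_ge_atTop (k + i0)] with n hn y hy
        rw [mem_ball_zero_iff] at hy
        obtain ⟨i, rfl⟩ := Nat.exists_eq_add_of_le (show k ≤ n by omega)
        have h6 : ‖y‖ ≤ R (k + i) := (hy.le.trans hk).trans (hmono (by omega))
        rw [dist_eq_norm]
        calc ‖F y - f (k + i) y‖ ≤ b (k + i) := hbound (k + i) y h6
          _ ≤ b k / 2 ^ i := hbg k i
          _ < ε := hi0 i (by omega)
    exact hloc.differentiableOn (Eventually.of_forall fun k => hPd _ (hPf k)) isOpen_ball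
  refine ⟨F, hdiff, fun j => e2 j F hdiff (hbound (j + 1)), ?_, f, hPf, ?_⟩
  · intro z hz
    have := hbound 0 z (by rw [hR0]; exact hz)
    rwa [hf0, hb0] at this
  · intro z hz
    exact hF z (mem_ball_zero_iff.1 hz)

end Pool.Agent.Helper72.LT
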